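import Pool.Agent.H914R2.Weil

/-!
# Cohomology theories over all algebraically closed fields of a given characteristic

The definitions used in the statement of `MP_f569db_ag.BoundedDimension`: Weil cohomology theories
over all algebraically closed fields of characteristic `p`, homological and numerical equivalence of
the cycles of a given dimension or codimension, and the known theorems on these theories which are
used (weak Lefschetz theorem, generic hypersurface sections through a smooth subvariety,
specialisation, the theorem on global invariant cycles).
-/

set_option autoImplicit false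

open CategoryTheory AlgebraicGeometry

universe v

noncomputable section

namespace Pool.Agent.Helper5.BD

open Pool.Agent.H914 Pool.Agent.H914.VarClass

/-- An algebraically closed field of characteristic `p` (a prime number or zero). -/
structure ClosedField (p : ℕ) where
  /-- the field -/
  K : Type
  [field : Field K]
  [closed : IsAlgClosed K]
  [char : CharP K p]

attribute [instance] ClosedField.field ClosedField.closed ClosedField.char

/-- The field `k` is algebraic over its prime field: it is an algebraic closure of the field with
`p` elements, or of the field of rational numbers if `p = 0`. -/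
def IsPrimeClosure {p : ℕ} (k : ClosedField p) : Prop :=
  ∀ x : k.K, ∃ f : Polynomial ℤ, f.map (Int.castRingHom k.K) ≠ 0 ∧ Polynomial.aeval x f = 0

/-- A Weil cohomology theory for every algebraically closed field `k` of characteristic `p`, on a
class of smooth proper varieties over `k` closed under products (the example: all smooth projective
varieties, `ℓ`-adic cohomology, `ℓ ≠ p`). -/
structure Theory (p : ℕ) where
  /-- the class of varieties over `k` -/
  𝒱 : ∀ k : ClosedField p, VarClass.{0} k.K
  /-- the operations on cycles -/
  ops : ∀ k : ClosedField p, CycleOps (𝒱 k)
  /-- the cohomology theory -/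
  W : ∀ k : ClosedField p, WeilCohomology.{0, v} (ops k)

section Abbreviations

variable {p : ℕ} (T : Theory.{v} p) (k : ClosedField p)

/-- The varieties over `k`. -/
abbrev Theory.Var : Type 1 := (T.𝒱 k).Obj

/-- The coefficient field of the cohomology theory over `k`. -/
abbrev Coef : Type v := (T.W k).K

variable {T k} (X Y : T.Var k)

/-- The dimension of `X`. -/
abbrev dim : ℕ := X.V.dim

/-- The product `X × Y`. -/
abbrev prod : T.Var k := VarClass.Obj.prod X Y

/-- The cycles on `X` with rational coefficients. -/
abbrev Cyc : Type := X.V.Cycles

/-- The cohomology `H(X)`. -/
abbrev H : Type v := (T.W k).H X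

variable {X Y}

/-- The cycle `z` has codimension `c`. -/
abbrev IsCodim (c : ℕ) (z : Cyc X) : Prop := X.V.IsCyc c z

/-- The class of the cycle `z`. -/
abbrev cl (z : Cyc X) : H X := (T.W k).cl X z

/-- The class `a` has degree `i`. -/
abbrev InDeg (i : ℕ) (a : H X) : Prop := a ∈ (T.W k).gr X i

/-- The pairing `tr (a b)` on the cohomology. -/
abbrev pair (a b : H X) : Coef T k := (T.W k).tr X (a * b)

/-- The pull-back of cohomology classes under a morphism. -/
abbrev pull (f : X ⟶ Y) (a : H Y) : H X := (T.W k).map f a

/-- The direct image of cohomology classes under a morphism. -/
abbrev push (f : X ⟶ Y) (a : H X) : H Y := (T.W k).push f a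

/-- The external product `a × b` on `X × Y`. -/
abbrev ext (a : H X) (b : H Y) : H (prod X Y) :=
  (T.W k).map (VarClass.Obj.fst X Y) a * (T.W k).map (VarClass.Obj.snd X Y) b

variable (X) in
/-- The linear operators on the cohomology of `X`. -/
abbrev Op : Type v := H X →ₗ[Coef T k] H X

/-- The value of an operator. -/
abbrev Op.app (f : Op X) (a : H X) : H X := f a

/-- The intersection number of two cycles (of complementary dimensions) on `X`. -/
abbrev num (z w : Cyc X) : ℚ := X.V.degCycle ((T.ops k).mul z w)

end Abbreviations

variable {p : ℕ} {T : Theory.{v} p} {k : ClosedField p}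

/-- **The conjecture D for the cycles of dimension `r` on `X`** (`r ≤ dim X`): a cycle of dimension `r`
on `X` whose intersection numbers with all cycles of codimension `r` are zero is homologically
equivalent to zero. -/
def DDim (X : T.Var k) (r : ℕ) : Prop :=
  ∀ z : Cyc X, IsCodim (dim X - r) z → (∀ w : Cyc X, IsCodim r w → num z w = 0) → cl z = 0

/-- **The conjecture D for the cycles of codimension `c` on `X`** (`c ≤ dim X`). -/
def DCodim (X : T.Var k) (c : ℕ) : Prop :=
  ∀ z : Cyc X, IsCodim c z → (∀ w : Cyc X, IsCodim (dim X - c) w → num z w = 0) → cl z = 0

/-- The cycle `z` is a combination of pairwise disjoint smooth closed subvarieties of `X`: the closure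
of each point `x` with a nonzero coefficient in `z` is the image of a closed immersion, over `k`, of a
smooth variety, and the closures of different such points are disjoint. -/
def SmoothSupport (X : T.Var k) (z : Cyc X) : Prop :=
  (∀ x, X.V.coeff z x ≠ 0 → ∃ (Z : SmVar k.K) (j : Z.X ⟶ X.V.X), IsClosedImmersion j ∧
    j ≫ X.V.str = Z.str ∧ j (genericPoint Z.X) = x) ∧
  ∀ x y, X.V.coeff z x ≠ 0 → X.V.coeff z y ≠ 0 → x ≠ y →
    Disjoint (closure {x}) (closure {y})

/-- A map from the cycles and the cohomology of `X` to those of the variety `Y` of the same dimension
over another field, which preserves intersection numbers and maps nonzero cohomology classes to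
nonzero classes. Examples:
* `Y = X_L` is the variety obtained from `X` by the extension `L` of the field `k`;
* `Y` is a specialisation of `X` (a closed fibre of a smooth projective model of `X`), with the
  specialisation of cycles and the isomorphism of the cohomologies given by the smooth and proper base
  change theorem. -/
structure Transport {L : ClosedField p} (X : T.Var k) (Y : T.Var L) where
  /-- the map of cycles -/
  cyc : Cyc X → Cyc Y
  /-- the map in cohomology -/
  coh : H X → H Y
  dim_eq : dim Y = dim X
  cyc_mem : ∀ c z, IsCodim c z → IsCodim c (cyc z)
  cl_eq : ∀ z, cl (cyc z) = coh (cl z)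
  eq_zero : ∀ a, coh a = 0 → a = 0
  num_eq : ∀ c z w, c ≤ dim X → IsCodim (dim X - c) z → IsCodim c w →
    num (cyc z) (cyc w) = num z w

/-- The cycle `z'` of dimension `r` on `Y`, with smooth support, has a direct image with the class `a`
on `X`. -/
structure LiftsCycle {X Y : T.Var k} (i : Y ⟶ X) (r : ℕ) (a : H X) (z' : Cyc Y) : Prop where
  mem : IsCodim (dim Y - r) z'
  smooth : SmoothSupport Y z'
  push_eq : push i (cl z') = a

/-- **Galois descent for the cycles on the generic hypersurface section `Y ⊆ X_L`** (see
`GenericSection`): the Galois group `G` of `L / K` acts on the cycles and the cohomology of `Y`,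
trivially on the restrictions of classes on `X`. A cycle `w` of codimension `r` on `Y` is defined over
a finite extension of `K`; the sum of its conjugates (a multiple of it) is a cycle over `K`, and each
cycle of codimension `r` over `K` is rationally equivalent to the restriction of a cycle on `X`: the
variety of the pairs of a point `x` of `X - Z` and a member of the linear system through `x` is a
projective bundle over `X - Z`, and the codimension of `Z` in the generic member is larger
than `r`. -/
structure Descent {L : ClosedField p} {X : T.Var k} {XL : T.Var L} (bc : Transport X XL)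
    {Y : T.Var L} (i : Y ⟶ XL) (r : ℕ) where
  /-- the Galois group -/
  G : Type
  /-- its action on cycles -/
  act : G → Cyc Y → Cyc Y
  /-- its action on the cohomology -/
  σ : G → H Y → H Y
  cl_act : ∀ g w, cl (act g w) = σ g (cl w)
  /-- classes which come from `X` are invariant -/
  σ_eq : ∀ g x, σ g (pull i (bc.coh x)) = pull i (bc.coh x)
  /-- the sum of the conjugates of a cycle of codimension `r` comes from `X` -/
  descent : ∀ w, IsCodim r w → ∃ (s : Multiset G) (w₀ : Cyc X), s ≠ 0 ∧ IsCodim r w₀ ∧
    (s.map fun g => cl (act g w)).sum = pull i (cl (bc.cyc w₀))

/-- **Generic hypersurface sections through the support of a cycle.** Let `z` be a combination of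
disjoint smooth subvarieties of `X` of dimension `r`, with union `Z`, where `2 r + 2 ≤ n = dim X`. For
large `m` let `L` be an algebraic closure of the function field `K` of the linear system of the
hypersurface sections of degree `m` which contain `Z`, and `Y ⊆ X_L` its generic member. It is smooth,
as `2 r < n`, and it contains `Z_L`, so that `z` is a cycle on `Y`. By the weak Lefschetz theorem
the restriction `H^{2r}(X_L) → H^{2r}(Y)` is surjective, as `2 r < dim Y`. -/
structure GenericSection (X : T.Var k) (r : ℕ) (z : Cyc X) where
  /-- the algebraic closure of the function field of the linear system -/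
  L : ClosedField p
  /-- the variety `X_L` -/
  XL : T.Var L
  /-- the base change -/
  bc : Transport X XL
  /-- the generic member of the linear system, over `L` -/
  Y : T.Var L
  /-- the inclusion -/
  i : Y ⟶ XL
  dim_eq : dim Y + 1 = dim XL
  /-- weak Lefschetz theorem, surjectivity in degree `2 r < dim Y` -/
  lefschetz : ∀ a : H Y, InDeg (2 * r) a → ∃ x : H X, pull i (bc.coh x) = a
  /-- the cycle `z` on `Y` -/
  z' : Cyc Y
  lifts : LiftsCycle i r (cl (bc.cyc z)) z'
  /-- the action of the Galois group -/
  gal : Descent bc i r

/-- **The total space of a family** (see `Spread`). Let `M` be a smooth projective variety over `k₀` with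
a generically finite morphism onto a projective compactification of `𝒳`.

* `restr : H(M) → H(S)` is the composite of the restriction to the preimage of `𝒳` in `M`, the direct
  image in `H(𝒳)`, and the restriction to `S`; and `gysin : H(S) → H(M)` is its dual. It maps the class
  of the cycle `s` on `S`, of dimension `r`, to the class of a cycle `ζ` of dimension `r` on `M`, with
  support over `S`;
* for a cycle `w` of codimension `r` on `M`, the class `restr (cl w)` is the class of the
  specialisation of the cycle on `X` which is the restriction of the direct image of `w` to the
  generic fibre. -/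
structure TotalSpace {k₀ : ClosedField p} {X : T.Var k} {S : T.Var k₀} (sp : Transport X S)
    (M : T.Var k₀) (r : ℕ) (s : Cyc S) where
  /-- the restriction of (direct images of) classes to the closed fibre -/
  restr : H M → H S
  /-- the dual of `restr` -/
  gysin : H S → H M
  adj : ∀ v x, pair (gysin v) x = pair v (restr x)
  /-- the cycle on `M` given by `s` -/
  ζ : Cyc M
  ζ_mem : IsCodim (dim M - r) ζ
  cl_ζ : cl ζ = gysin (cl s)
  generic_fibre : ∀ w, IsCodim r w → ∃ w' : Cyc X, IsCodim r w' ∧
    restr (cl w) = cl (sp.cyc w')

/-- The set of operators `ρ g` on the vector space `V` is semisimple: each subspace stable under all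
`ρ g` has a complement with the same property. -/
def IsSemisimpleFamily {K V π : Type*} [Field K] [AddCommGroup V] [Module K V]
    (ρ : π → V →ₗ[K] V) : Prop :=
  ∀ U : Submodule K V, (∀ g, ∀ u ∈ U, ρ g u ∈ U) →
    ∃ U' : Submodule K V, (∀ g, ∀ u ∈ U', ρ g u ∈ U') ∧ IsCompl U U'

/-- **The monodromy** (see `Spread`): the group `π` is the fundamental group of `B`. It acts on the
cohomology `H(S)` of the closed fibre by automorphisms of the graded space which preserve the form
`tr (a b)` (`π` acts trivially on the Tate twists), semisimply (Deligne), and by the theorem on
global invariant cycles (Deligne) all invariant classes of degree `2 r` are in the image of `restr`,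
the restriction of the classes on the total space. The class `a` (of a cycle defined over the function
field of `B`) is invariant. -/
structure Monodromy {S M : T.Var k} (restr : H M → H S) (r : ℕ) (a : H S) where
  /-- the fundamental group -/
  π : Type
  /-- its action on the cohomology of the fibre -/
  ρ : π → Op S
  ρ_gr : ∀ g i, ∀ b : H S, InDeg i b → InDeg i ((ρ g).app b)
  ρ_pair : ∀ g, ∀ b c : H S, pair ((ρ g).app b) ((ρ g).app c) = pair b c
  /-- the representation is semisimple -/
  semisimple : IsSemisimpleFamily ρ
  ρ_a : ∀ g, (ρ g).app a = a
  /-- the theorem on global invariant cycles -/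
  global_invariants : ∀ b : H S, InDeg (2 * r) b → (∀ g, (ρ g).app b = b) → ∃ x, restr x = b

/-- **Spreading out and specialisation to the closed field `k₀`.** Let `z` be a cycle of dimension `r`
on `X`, let `F` be the function field of a smooth variety `B` over `k₀` over which `X` and `z` are
defined (`X` is replaced by a variety over an algebraic closure of `F`: this changes neither the
classes nor the intersection numbers), `𝒳 → B` a smooth projective model of `X`, and `S` its
fibre at a closed point. Let `M` be a smooth projective variety over `k₀` with a generically finite
morphism onto a projective compactification of `𝒳` (de Jong). -/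
structure Spread (k₀ : ClosedField p) (X : T.Var k) (r : ℕ) (z : Cyc X) where
  /-- the closed fibre -/
  S : T.Var k₀
  /-- specialisation of cycles and cohomology classes -/
  sp : Transport X S
  /-- the variety which dominates the compactification of the total space -/
  M : T.Var k₀
  dim_M : dim X ≤ dim M
  /-- the total space -/
  tot : TotalSpace sp M r (sp.cyc z)
  /-- the monodromy -/
  mon : Monodromy tot.restr r (cl (sp.cyc z))

/-- **Hypersurface sections through curves, over the given field** (`r = 1`). Let `z` be a combination
of disjoint smooth curves on `X`, and `dim X ≥ 4`. For large `m` there is a smooth hypersurface section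
`Y` of degree `m` which contains these curves, and by the theorem of Grothendieck and Lefschetz
(`dim Y ≥ 3`) each divisor on `Y` is linearly equivalent to the restriction of a divisor on `X`. -/
structure PicardSection (X : T.Var k) (z : Cyc X) where
  /-- the hypersurface section -/
  Y : T.Var k
  /-- the inclusion -/
  i : Y ⟶ X
  dim_eq : dim Y + 1 = dim X
  /-- the cycle `z` on `Y` -/
  z' : Cyc Y
  lifts : LiftsCycle i 1 (cl z) z'
  /-- divisors on `Y` are restrictions of divisors -/
  picard : ∀ w : Cyc Y, IsCodim 1 w → ∃ w₀ : Cyc X, IsCodim 1 w₀ ∧ cl w = pull i (cl w₀)

/-- **Smoothing.** There is a projective space `P` (of large dimension) such that `z × point` is, on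
`X × P`, rationally equivalent to a combination `z'`, with rational coefficients, of disjoint smooth
subvarieties: by the theorem of de Jong `z` is a combination of direct images of smooth projective
varieties `V → X` of dimension `r`, which can be embedded into `X × P`. The class of `V` in `X × P` is the
sum of the classes of (direct image of `h^j V`) `× ℙ^j`, with `h` the class of a hyperplane section of `V`;
one uses induction on the dimension, for the cycles `z × ℙ^j`. General translations by elements of
`PGL` make the subvarieties disjoint. -/
def HasSmoothing (X : T.Var k) (r : ℕ) (z : Cyc X) : Prop :=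
  ∃ (P : T.Var k) (pt : Cyc P) (z' : Cyc (prod X P)), 2 * r + 1 ≤ dim (prod X P) ∧
    IsCodim (dim P) pt ∧ P.V.degCycle pt = 1 ∧ IsCodim (dim (prod X P) - r) z' ∧
    SmoothSupport (prod X P) z' ∧ cl z' = ext (cl z) (cl pt)

/-- **Weak Lefschetz theorem**: a smooth hyperplane section `Y` of `X`, and the injectivity of the
restriction in the degrees at most `dim Y`. -/
def HasSection (X : T.Var k) : Prop :=
  ∃ (Y : T.Var k) (i : Y ⟶ X), dim Y + 1 = dim X ∧
    ∀ j ≤ dim Y, ∀ a : H X, InDeg j a → pull i a = 0 → a = 0

/-- The known theorems which are used. -/
structure KnownTheorems (T : Theory.{v} p) (k₀ : ClosedField p) : Prop where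
  /-- There is a smooth projective curve. -/
  curve : ∀ k, ∃ P : T.Var k, dim P = 1
  /-- Each variety has a closed point. -/
  point : ∀ k (X : T.Var k), ∃ pt : Cyc X, IsCodim (dim X) pt ∧ X.V.degCycle pt = 1
  /-- Smoothing. -/
  smoothing : ∀ k (X : T.Var k) (r : ℕ) (z : Cyc X), r ≤ dim X → IsCodim (dim X - r) z →
    HasSmoothing X r z
  /-- Generic hypersurface sections. -/
  generic : ∀ k (X : T.Var k) (r : ℕ) (z : Cyc X), 2 * r + 2 ≤ dim X →
    IsCodim (dim X - r) z → SmoothSupport X z → Nonempty (GenericSection X r z)
  /-- Spreading out: the closure `k₀` of the prime field is contained in each field `k`. -/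
  spread : IsPrimeClosure k₀ → ∀ k (X : T.Var k) (r : ℕ) (z : Cyc X), r ≤ dim X →
    IsCodim (dim X - r) z → Nonempty (Spread k₀ X r z)
  /-- Hypersurface sections through curves and the theorem of Grothendieck and Lefschetz. -/
  picard : ∀ k (X : T.Var k) (z : Cyc X), 4 ≤ dim X → IsCodim (dim X - 1) z →
    SmoothSupport X z → Nonempty (PicardSection X z)
  /-- The weak Lefschetz theorem. -/
  hyperplane : ∀ k (X : T.Var k), 2 ≤ dim X → HasSection X

end Pool.Agent.Helper5.BD
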