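import Pool.Agent.Helper5.BD.Defs
import Pool.Agent.H914R2.WeilBasic

/-!
# Reduction of the conjecture D to bounded dimension and to the prime field: proofs
-/

set_option autoImplicit false

open CategoryTheory AlgebraicGeometry

universe v

namespace Pool.Agent.Helper5.BD

open Pool.Agent.H914 Pool.Agent.H914.VarClass Pool.Agent.H914.WeilCohomology

variable {p : ℕ} {T : Theory.{v} p} {k k₀ : ClosedField p}

lemma cl_mem' {X : T.Var k} {c : ℕ} {z : Cyc X} (hz : IsCodim c z) :
    (T.W k).cl X z ∈ (T.W k).gr X (2 * c) := (T.W k).cl_mem hz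

lemma cl_mul' {X : T.Var k} (z w : Cyc X) :
    cl ((T.ops k).mul z w) = cl z * cl w := (T.W k).cl_mul z w

lemma cl_pull' {X Y : T.Var k} (f : X ⟶ Y) (z : Cyc Y) :
    cl ((T.ops k).pull f z) = pull f (cl z) := (T.W k).cl_pull f z

lemma cl_push' {X Y : T.Var k} (f : X ⟶ Y) (z : Cyc X) :
    cl ((T.ops k).push f z) = push f (cl z) := (T.W k).cl_push f z

lemma pair_push {X Y : T.Var k} (f : X ⟶ Y) (a : H X) (b : H Y) :
    pair (push f a) b = pair a (pull f b) := (T.W k).tr_push f a b

lemma pair_comm_cl {X : T.Var k} {c : ℕ} {z : Cyc X} (hz : IsCodim c z) (a : H X) :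
    pair (cl z) a = pair a (cl z) := by
  unfold pair
  rw [(T.W k).even_comm (cl_mem' hz)]

lemma eq_zero_of_pair {X : T.Var k} (a : H X) (h : ∀ b, pair a b = 0) : a = 0 :=
  (T.W k).nondeg a h

lemma pair_add {X : T.Var k} (a b c : H X) : pair a (b + c) = pair a b + pair a c := by
  unfold pair
  rw [mul_add, map_add]

lemma pair_zero {X : T.Var k} (a : H X) : pair a (0 : H X) = 0 := by
  unfold pair
  rw [mul_zero, map_zero]

lemma zero_pair {X : T.Var k} (a : H X) : pair (0 : H X) a = 0 := by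
  unfold pair
  rw [zero_mul, map_zero]

lemma dim_prod' (X Y : T.Var k) : dim (prod X Y) = dim X + dim Y := rfl

/-- Intersection numbers are given by the orientation. -/
lemma num_cast (X : T.Var k) {r : ℕ} (hr : r ≤ dim X) {z w : Cyc X}
    (hz : IsCodim (dim X - r) z) (hw : IsCodim r w) :
    ((num z w : ℚ) : Coef T k) = pair (cl z) (cl w) := by
  have h1 := (T.ops k).mul_mem hz hw
  rw [Nat.sub_add_cancel hr] at h1
  unfold pair
  rw [← cl_mul', (T.W k).tr_cl h1]

lemma num_eq_zero_iff (X : T.Var k) {r : ℕ} (hr : r ≤ dim X) {z w : Cyc X}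
    (hz : IsCodim (dim X - r) z) (hw : IsCodim r w) :
    num z w = 0 ↔ pair (cl z) (cl w) = 0 := by
  rw [← num_cast X hr hz hw, Rat.cast_eq_zero]

section Generic

variable {X : T.Var k} {r : ℕ} {z : Cyc X}

/-- A multiple of each class of codimension `r` on the generic section comes from `X`. -/
lemma GenericSection.multiple (g : GenericSection X r z) {w : Cyc g.Y} (hw : IsCodim r w) :
    ∃ (n : ℕ) (w₀ : Cyc X), n ≠ 0 ∧ IsCodim r w₀ ∧ n • cl w = pull g.i (cl (g.bc.cyc w₀)) := by
  obtain ⟨x, hx⟩ := g.lefschetz _ (cl_mem' hw)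
  obtain ⟨s, w₀, hs, hw₀, h⟩ := g.gal.descent w hw
  refine ⟨Multiset.card s, w₀, fun h0 => hs (Multiset.card_eq_zero.1 h0), hw₀, ?_⟩
  have h1 : (s.map fun γ => cl (g.gal.act γ w)) = s.map fun _ => cl w := by
    refine Multiset.map_congr rfl fun γ _ => ?_
    have h2 : cl w = pull g.i (g.bc.coh x) := hx.symm
    rw [g.gal.cl_act, h2, g.gal.σ_eq]
  rw [h1, Multiset.map_const', Multiset.sum_replicate] at h
  exact h

/-- **A cycle which is numerically trivial on `X` is numerically trivial on the generic section.** -/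
lemma GenericSection.num_eq_zero (g : GenericSection X r z) (hr : 2 * r + 2 ≤ dim X)
    (hz : IsCodim (dim X - r) z) (h : ∀ w : Cyc X, IsCodim r w → num z w = 0) :
    ∀ w : Cyc g.Y, IsCodim r w → num g.z' w = 0 := by
  intro w hw
  have hY := g.dim_eq
  have hXL := g.bc.dim_eq
  obtain ⟨n, w₀, hn, hw₀, h1⟩ := g.multiple hw
  rw [num_eq_zero_iff g.Y (by omega) g.lifts.mem hw]
  have h2 : pair (cl g.z') (n • cl w) = 0 := by
    rw [h1, ← pair_push, g.lifts.push_eq]
    have h3 : IsCodim (dim g.XL - r) (g.bc.cyc z) := by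
      rw [hXL]; exact g.bc.cyc_mem _ _ hz
    rw [← num_eq_zero_iff g.XL (by omega) h3 (g.bc.cyc_mem _ _ hw₀),
      g.bc.num_eq r z w₀ (by omega) hz hw₀]
    exact h w₀ hw₀
  unfold pair at h2 ⊢
  rw [mul_smul_comm, map_nsmul, smul_eq_zero] at h2
  exact h2.resolve_left hn

lemma GenericSection.zero (g : GenericSection X r z) (h : cl g.z' = 0) : cl z = 0 := by
  have h1 := g.lifts.push_eq
  rw [h, g.bc.cl_eq] at h1
  exact g.bc.eq_zero _ (by rw [← h1]; exact map_zero ((T.W g.L).push g.i))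

end Generic

/-- The conjecture for smoothly supported cycles, by induction on the dimension. -/
theorem smooth_of_bounded (F : KnownTheorems T k₀) {r : ℕ}
    (hb : ∀ k (X : T.Var k), dim X = 2 * r + 1 → DDim X r) (n : ℕ) :
    ∀ k (X : T.Var k), dim X = 2 * r + 1 + n → ∀ z : Cyc X, IsCodim (dim X - r) z →
      SmoothSupport X z → (∀ w : Cyc X, IsCodim r w → num z w = 0) → cl z = 0 := by
  induction n with
  | zero =>
    intro k X hX z hz _ h
    exact hb k X (by omega) z hz h
  | succ n ih =>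
    intro k X hX z hz hs h
    obtain ⟨g⟩ := F.generic k X r z (by omega) hz hs
    have hY := g.dim_eq
    have hXL := g.bc.dim_eq
    exact g.zero (ih g.L g.Y (by omega) g.z' g.lifts.mem g.lifts.smooth
      (g.num_eq_zero (by omega) hz h))

/-- **Passing from `z` to `z × point`.** -/
theorem smoothing_step (X P : T.Var k) {r : ℕ} (hr : r ≤ dim X) {z : Cyc X}
    (hz : IsCodim (dim X - r) z) {pt : Cyc P} (hpt : IsCodim (dim P) pt)
    (hdeg : P.V.degCycle pt = 1) {z' : Cyc (prod X P)}
    (hz' : IsCodim (dim (prod X P) - r) z') (hcl : cl z' = ext (cl z) (cl pt)) :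
    ((∀ w : Cyc X, IsCodim r w → num z w = 0) → ∀ w : Cyc (prod X P), IsCodim r w →
      num z' w = 0) ∧ (cl z' = 0 → cl z = 0) := by
  have hd : dim (prod X P) = dim X + dim P := rfl
  constructor
  · intro h w hw
    rw [num_eq_zero_iff (prod X P) (by omega) hz' hw, hcl]
    have h1 : IsCodim r ((T.ops k).push (VarClass.Obj.fst X P)
        ((T.ops k).mul ((T.ops k).pull (VarClass.Obj.snd X P) pt) w)) := by
      refine (T.ops k).push_mem (VarClass.Obj.fst X P)
        ((T.ops k).mul_mem ((T.ops k).pull_mem (VarClass.Obj.snd X P) hpt) hw) ?_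
      change P.V.dim + r + X.V.dim = r + (X.V.dim + P.V.dim)
      omega
    have h2 := h _ h1
    rw [num_eq_zero_iff X hr hz h1, pair_comm_cl hz, cl_push', pair_push, cl_mul', cl_pull'] at h2
    unfold pair pull at h2
    unfold pair ext
    rw [mul_assoc, (T.W k).even_comm (p := dim X - r)
      ((T.W k).map_mem (VarClass.Obj.fst X P) (cl_mem' hz))]
    exact h2
  · intro h
    rw [hcl] at h
    apply eq_zero_of_pair
    intro b
    have h1 := (T.W k).tr_prod (X := X) (Y := P) (cl z * b) (cl pt)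
    rw [(T.W k).tr_cl hpt, hdeg, Rat.cast_one, mul_one] at h1
    unfold pair
    unfold ext at h
    rw [← h1, map_mul ((T.W k).map (VarClass.Obj.fst X P)), mul_assoc,
      ← (T.W k).even_comm (p := dim P)
      ((T.W k).map_mem (VarClass.Obj.snd X P) (cl_mem' hpt)), ← mul_assoc, h, zero_mul, map_zero]

/-- **Bounded dimension implies all dimensions.** -/
theorem all_of_bounded (F : KnownTheorems T k₀) {r : ℕ}
    (hb : ∀ k (X : T.Var k), dim X = 2 * r + 1 → DDim X r) (k : ClosedField p) (X : T.Var k)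
    (hr : r ≤ dim X) : DDim X r := by
  intro z hz h
  obtain ⟨P, pt, z', hdim, hpt, hdeg, hz', hs, hcl⟩ := F.smoothing k X r z hr hz
  obtain ⟨h1, h2⟩ := smoothing_step X P hr hz hpt hdeg hz' hcl
  obtain ⟨n, hn⟩ := Nat.exists_eq_add_of_le hdim
  exact h2 (smooth_of_bounded F hb n k (prod X P) hn z' hz' hs (h1 h))

section Spread

variable {X : T.Var k} {r : ℕ} {z : Cyc X}

/-- A class invariant under the fundamental group which is orthogonal to all invariant classes is
zero. -/
lemma Monodromy.zero {S M : T.Var k} {restr : H M → H S} {r : ℕ}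
    {a : H S} (s : Monodromy restr r a)
    (h : ∀ b : H S, (∀ g, s.ρ g b = b) → pair a b = 0) : a = 0 := by
  have ha := s.ρ_a
  set I : Submodule (Coef T k) (H S) :=
    { carrier := {b | ∀ g, s.ρ g b = b}
      add_mem' := fun {b c} hb hc g => by rw [map_add, hb g, hc g]
      zero_mem' := fun g => map_zero _
      smul_mem' := fun q b hb g => by rw [map_smul, hb g] } with hI
  obtain ⟨U, hU, hc⟩ := s.semisimple I (fun g u hu => by rw [hu g]; exact hu)
  set f : (H S) →ₗ[Coef T k] Coef T k :=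
    (T.W k).tr S ∘ₗ LinearMap.mulLeft (T.W k).K a with hf
  have hfinv : ∀ g b, f (s.ρ g b) = f b := by
    intro g b
    have h1 := s.ρ_pair g a b
    rw [ha g] at h1
    exact h1
  -- `f` vanishes on `U`
  have hfU : ∀ u ∈ U, f u = 0 := by
    obtain ⟨V, hV, hc'⟩ := s.semisimple (U ⊓ LinearMap.ker f)
      (fun g u hu => ⟨hU g u hu.1, by
        have h1 : f u = 0 := hu.2
        show f (s.ρ g u) = 0
        rw [hfinv, h1]⟩)
    intro u hu
    obtain ⟨x, hx, y, hy, rfl⟩ := Submodule.mem_sup.1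
      (show u ∈ (U ⊓ LinearMap.ker f) ⊔ V by rw [hc'.sup_eq_top]; trivial)
    have hyU : y ∈ U := (Submodule.add_mem_iff_right U hx.1).1 hu
    have hyI : y ∈ I := by
      intro g
      have h1 : s.ρ g y - y ∈ V := V.sub_mem (hV g y hy) hy
      have h2 : s.ρ g y - y ∈ U ⊓ LinearMap.ker f :=
        ⟨U.sub_mem (hU g y hyU) hyU, by
          show f (s.ρ g y - y) = 0
          rw [map_sub, hfinv, sub_self]⟩
      have h3 : s.ρ g y - y ∈ (⊥ : Submodule (Coef T k) (H S)) := by
        rw [← hc'.inf_eq_bot]; exact ⟨h2, h1⟩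
      exact sub_eq_zero.1 ((Submodule.mem_bot _).1 h3)
    have hy0 : y = 0 := by
      have : y ∈ (⊥ : Submodule (Coef T k) (H S)) := by
        rw [← hc.inf_eq_bot]; exact ⟨hyI, hyU⟩
      exact (Submodule.mem_bot _).1 this
    rw [hy0, add_zero]
    exact hx.2
  apply eq_zero_of_pair
  intro b
  obtain ⟨x, hx, y, hy, rfl⟩ := Submodule.mem_sup.1
    (show b ∈ I ⊔ U by rw [hc.sup_eq_top]; trivial)
  rw [pair_add, h x hx, zero_add]
  exact hfU y hy

/-- **The conjecture for the total space implies the conjecture for the generic fibre.** -/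
lemma Spread.zero (s : Spread k₀ X r z) (hr : r ≤ dim X) (hz : IsCodim (dim X - r) z)
    (hM : DDim s.M r) (h : ∀ w : Cyc X, IsCodim r w → num z w = 0) : cl z = 0 := by
  have hS := s.sp.dim_eq
  have hM' := s.dim_M
  have hzs : IsCodim (dim s.S - r) (s.sp.cyc z) := by rw [hS]; exact s.sp.cyc_mem _ _ hz
  -- the cycle `ζ` is numerically trivial
  have h1 : cl s.tot.ζ = 0 := by
    refine hM s.tot.ζ s.tot.ζ_mem fun w hw => ?_
    rw [num_eq_zero_iff s.M (by omega) s.tot.ζ_mem hw, s.tot.cl_ζ, s.tot.adj]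
    obtain ⟨w', hw', h2⟩ := s.tot.generic_fibre w hw
    rw [h2, ← num_eq_zero_iff s.S (by omega) hzs (s.sp.cyc_mem _ _ hw'),
      s.sp.num_eq r z w' hr hz hw']
    exact h w' hw'
  have h2 : cl (s.sp.cyc z) = 0 := by
    refine s.mon.zero fun b hb => ?_
    -- only the component of degree `2 r` matters
    have key : ∀ c ∈ (T.W k₀).gr s.S (2 * r), (∀ g, s.mon.ρ g c = c) →
        pair (cl (s.sp.cyc z)) c = 0 := by
      intro c hc hc'
      obtain ⟨x, rfl⟩ := s.mon.global_invariants c hc hc'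
      rw [← s.tot.adj, ← s.tot.cl_ζ, h1, zero_pair]
    set pr := proj ((T.W k₀).isInternal s.S) (2 * r) with hpr
    have h3 : ∀ b : H s.S, pair (cl (s.sp.cyc z)) b = pair (cl (s.sp.cyc z)) (pr b) := by
      intro b
      refine gr_induction ((T.W k₀).isInternal s.S) (p := fun b =>
        pair (cl (s.sp.cyc z)) b = pair (cl (s.sp.cyc z)) (pr b)) ?_ ?_ b
      · intro j b hb
        by_cases hj : j = 2 * r
        · subst hj
          rw [hpr, proj_same _ hb]
        · rw [hpr, proj_ne _ hb hj, pair_zero]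
          exact (T.W k₀).tr_eq_zero ((T.W k₀).mul_mem (cl_mem' hzs) hb) (by
            change _ ≠ 2 * dim s.S
            omega)
      · intro b c hb hc
        rw [pair_add, map_add, pair_add, hb, hc]
    have h4 : ∀ g b, s.mon.ρ g (pr b) = pr (s.mon.ρ g b) := by
      intro g b
      refine gr_induction ((T.W k₀).isInternal s.S)
        (p := fun b => s.mon.ρ g (pr b) = pr (s.mon.ρ g b)) ?_ ?_ b
      · intro j b hb
        by_cases hj : j = 2 * r
        · subst hj
          rw [hpr, proj_same _ hb, proj_same _ (s.mon.ρ_gr g _ b hb)]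
        · rw [hpr, proj_ne _ hb hj, proj_ne _ (s.mon.ρ_gr g _ b hb) hj, map_zero]
      · intro b c hb hc
        rw [map_add, map_add, map_add, map_add, hb, hc]
    rw [h3]
    exact key _ (proj_mem _ _ _) fun g => by rw [h4, hb g]
  rw [s.sp.cl_eq] at h2
  exact s.sp.eq_zero _ h2

end Spread

/-- **The prime field implies all fields.** -/
theorem all_of_prime (F : KnownTheorems T k₀) (hk₀ : IsPrimeClosure k₀) {r : ℕ}
    (h0 : ∀ X : T.Var k₀, r ≤ dim X → DDim X r) (k : ClosedField p) (X : T.Var k)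
    (hr : r ≤ dim X) : DDim X r := by
  intro z hz h
  obtain ⟨s⟩ := F.spread hk₀ k X r z hr hz
  exact s.zero hr hz (h0 s.M (hr.trans s.dim_M)) h

section Curves

/-- A one-cycle which is numerically trivial on `X` is numerically trivial on the hypersurface
section. -/
lemma PicardSection.num_eq_zero {X : T.Var k} {z : Cyc X} (g : PicardSection X z)
    (hd : 4 ≤ dim X) (hz : IsCodim (dim X - 1) z)
    (h : ∀ w : Cyc X, IsCodim 1 w → num z w = 0) :
    ∀ w : Cyc g.Y, IsCodim 1 w → num g.z' w = 0 := by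
  intro w hw
  have hY := g.dim_eq
  obtain ⟨w₀, hw₀, h1⟩ := g.picard w hw
  rw [num_eq_zero_iff g.Y (by omega) g.lifts.mem hw, h1, ← pair_push, g.lifts.push_eq,
    ← num_eq_zero_iff X (by omega) hz hw₀]
  exact h w₀ hw₀

theorem smooth_of_threefolds (F : KnownTheorems T k₀) (k : ClosedField p)
    (hb : ∀ X : T.Var k, dim X = 3 → DDim X 1) (n : ℕ) :
    ∀ X : T.Var k, dim X = 3 + n → ∀ z : Cyc X, IsCodim (dim X - 1) z → SmoothSupport X z →
      (∀ w : Cyc X, IsCodim 1 w → num z w = 0) → cl z = 0 := by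
  induction n with
  | zero =>
    intro X hX z hz _ h
    exact hb X (by omega) z hz h
  | succ n ih =>
    intro X hX z hz hs h
    obtain ⟨g⟩ := F.picard k X z (by omega) hz hs
    have hY := g.dim_eq
    have h1 := ih g.Y (by omega) g.z' g.lifts.mem g.lifts.smooth (g.num_eq_zero (by omega) hz h)
    rw [← g.lifts.push_eq, h1]
    exact map_zero ((T.W k).push g.i)

/-- **Threefolds over a fixed field imply all dimensions, for one-cycles.** -/
theorem curves_of_threefolds (F : KnownTheorems T k₀) (k : ClosedField p)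
    (hb : ∀ X : T.Var k, dim X = 3 → DDim X 1) (X : T.Var k) (hr : 1 ≤ dim X) :
    DDim X 1 := by
  intro z hz h
  obtain ⟨P, pt, z', hdim, hpt, hdeg, hz', hs, hcl⟩ := F.smoothing k X 1 z hr hz
  obtain ⟨h1, h2⟩ := smoothing_step X P hr hz hpt hdeg hz' hcl
  obtain ⟨n, hn⟩ := Nat.exists_eq_add_of_le hdim
  exact h2 (smooth_of_threefolds F k hb n (prod X P) hn z' hz' hs (h1 h))

end Curves

section Codim

/-- Varieties of any positive dimension. -/
lemma exists_dim (F : KnownTheorems T k₀) (k : ClosedField p) (m : ℕ) :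
    ∃ P : T.Var k, dim P = m + 1 := by
  obtain ⟨C, hC⟩ := F.curve k
  induction m with
  | zero => exact ⟨C, hC⟩
  | succ m ih =>
    obtain ⟨P, hP⟩ := ih
    exact ⟨prod P C, by rw [dim_prod', hP, hC]⟩

/-- A class of degree one. -/
lemma exists_tr (F : KnownTheorems T k₀) (P : T.Var k) :
    ∃ u : H P, (T.W k).tr P u = 1 := by
  obtain ⟨pt, hpt, hdeg⟩ := F.point k P
  exact ⟨_, by rw [(T.W k).tr_cl hpt, hdeg, Rat.cast_one]⟩

lemma num_eq_zero_iff' (X : T.Var k) {c : ℕ} (hc : c ≤ dim X) {z w : Cyc X}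
    (hz : IsCodim c z) (hw : IsCodim (dim X - c) w) :
    num z w = 0 ↔ pair (cl z) (cl w) = 0 := by
  have h1 := (T.ops k).mul_mem hz hw
  rw [Nat.add_sub_cancel' hc] at h1
  unfold pair
  rw [← cl_mul', (T.W k).tr_cl h1, Rat.cast_eq_zero]

/-- A cycle is numerically trivial if its pull-back is: the general principle. -/
lemma num_pull {X Y : T.Var k} (f : Y ⟶ X) {c : ℕ} (hX : c ≤ dim X) (hY : c ≤ dim Y)
    {z : Cyc X} (hz : IsCodim c z) (h : ∀ w : Cyc X, IsCodim (dim X - c) w → num z w = 0)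
    (w : Cyc Y) (hw : IsCodim (dim Y - c) w) : num ((T.ops k).pull f z) w = 0 := by
  have hz' : IsCodim c ((T.ops k).pull f z) := (T.ops k).pull_mem _ hz
  rw [num_eq_zero_iff' Y hY hz' hw, pair_comm_cl hz', cl_pull', ← pair_push, ← cl_push']
  have hw' : IsCodim (dim X - c) ((T.ops k).push f w) := by
    refine (T.ops k).push_mem f hw ?_
    change dim Y - c + dim X = dim X - c + dim Y
    omega
  rw [← pair_comm_cl hz, ← num_eq_zero_iff' X hX hz hw']
  exact h _ hw'

/-- Products with other varieties. -/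
lemma codim_of_prod (X P : T.Var k) {c : ℕ} (hc : c ≤ dim X)
    (hP : ∃ u : H P, (T.W k).tr P u = 1) (h : DCodim (prod X P) c) : DCodim X c := by
  intro z hz hnum
  have hd : dim (prod X P) = dim X + dim P := rfl
  have hz' : IsCodim c ((T.ops k).pull (VarClass.Obj.fst X P) z) := (T.ops k).pull_mem _ hz
  have h1 := h _ hz' (num_pull (VarClass.Obj.fst X P) hc
    (by change c ≤ dim (prod X P); omega) hz hnum)
  rw [cl_pull'] at h1
  -- the pull-back along a projection is injective
  apply eq_zero_of_pair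
  intro b
  obtain ⟨u, hu⟩ := hP
  have h2 := (T.W k).tr_prod (X := X) (Y := P) (cl z * b) u
  have h3 : (T.W k).map (VarClass.Obj.fst X P) (cl z) = 0 := h1
  rw [map_mul ((T.W k).map (VarClass.Obj.fst X P)), h3, zero_mul, zero_mul, map_zero, hu,
    mul_one] at h2
  exact h2.symm

theorem codim_ge (F : KnownTheorems T k₀) (k : ClosedField p) {c : ℕ} (hc : 1 ≤ c)
    (h : ∀ X : T.Var k, dim X = 2 * c → DCodim X c) (n : ℕ) :
    ∀ X : T.Var k, dim X = 2 * c + n → DCodim X c := by
  induction n with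
  | zero => intro X hX; exact h X (by omega)
  | succ n ih =>
    intro X hX z hz hnum
    obtain ⟨Y, i, hd, hi⟩ := F.hyperplane k X (by omega)
    refine hi (2 * c) (by omega) _ (cl_mem' hz) ?_
    rw [← cl_pull']
    exact ih Y (by omega) _ ((T.ops k).pull_mem _ hz) (num_pull i (by omega) (by omega) hz hnum)

theorem codim_all (F : KnownTheorems T k₀) (k : ClosedField p) {c : ℕ} (hc : 1 ≤ c)
    (h : ∀ X : T.Var k, dim X = 2 * c → DCodim X c) (X : T.Var k) (hX : c ≤ dim X) :
    DCodim X c := by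
  rcases lt_or_ge (dim X) (2 * c) with h1 | h1
  · obtain ⟨P, hP⟩ := exists_dim F k (2 * c - dim X - 1)
    exact codim_of_prod X P hX (exists_tr F P) (h _ (by rw [dim_prod', hP]; omega))
  · obtain ⟨n, hn⟩ := Nat.exists_eq_add_of_le h1
    exact codim_ge F k hc h n X hn

/-- The conjecture in codimension zero. -/
lemma codim_zero (F : KnownTheorems T k₀) (X : T.Var k) : DCodim X 0 := by
  intro z hz h
  obtain ⟨pt, hpt, hdeg⟩ := F.point k X
  have h1 := h pt hpt
  rw [num_eq_zero_iff' X (Nat.zero_le _) hz hpt] at h1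
  have h2 := cl_mem' hz
  rw [mul_zero, (T.W k).gr_zero, Submodule.mem_span_singleton] at h2
  obtain ⟨a, ha⟩ := h2
  have h3 : cl z = a • (1 : H X) := ha.symm
  unfold pair at h1
  rw [h3, smul_mul_assoc, one_mul, map_smul, (T.W k).tr_cl hpt, hdeg, Rat.cast_one,
    smul_eq_mul, mul_one] at h1
  rw [h3, h1, zero_smul]

lemma dDim_iff (X : T.Var k) {r : ℕ} (hr : r ≤ dim X) : DDim X r ↔ DCodim X (dim X - r) := by
  unfold DDim DCodim
  rw [Nat.sub_sub_self hr]

lemma dCodim_iff (X : T.Var k) {c : ℕ} (hc : c ≤ dim X) : DCodim X c ↔ DDim X (dim X - c) := by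
  rw [dDim_iff X (Nat.sub_le _ _), Nat.sub_sub_self hc]

/-- **All cycles on all varieties.** -/
theorem full_iff (F : KnownTheorems T k₀) (hk₀ : IsPrimeClosure k₀) :
    (∀ (k : ClosedField p) (X : T.Var k) (c : ℕ), c ≤ dim X → DCodim X c) ↔
      ∀ (c : ℕ) (X : T.Var k₀), dim X = 2 * c → DCodim X c := by
  refine ⟨fun h c X hX => h k₀ X c (by omega), fun h k X c hc => ?_⟩
  have h0 : ∀ (c : ℕ) (X : T.Var k₀), c ≤ dim X → DCodim X c := by
    intro c X hX
    rcases Nat.eq_zero_or_pos c with rfl | hc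
    · exact codim_zero F X
    · exact codim_all F k₀ hc (h c) X hX
  rw [dCodim_iff X hc]
  refine all_of_prime F hk₀ (fun Y hY => ?_) k X (Nat.sub_le _ _)
  rw [dDim_iff Y hY]
  exact h0 _ Y (Nat.sub_le _ _)

end Codim

end Pool.Agent.Helper5.BD
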